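import Pool.Agent.R881.RdpD

/-!
# MP_2f19c2_an, Q1: a Banach space with the RDPP but without the quantitative RDPP

For both scalar fields there is a Banach space with the reciprocal Dunford-Pettis property which
does not have the quantitative reciprocal Dunford-Pettis property.  (The space is the `c₀`-sum of
`ℓ_∞({±1}^ℕ)` under the equivalent norms `max (‖x‖_∞, n · dist (x, R))`, where `R` is a closed
subspace containing the Rademacher functions.)
-/

open scoped ENNReal NNReal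
open Set Metric Filter Topology

namespace Pool.Agent.Results.MP_2f19c2_an.NotQuantitative

universe u v w

section defs

variable (𝕜 : Type u) [RCLike 𝕜] {X : Type v} {Y : Type w} [NormedAddCommGroup X]
  [NormedSpace 𝕜 X] [NormedAddCommGroup Y] [NormedSpace 𝕜 Y]

/-- weakly Cauchy sequences -/
def WeaklyCauchy (x : ℕ → X) : Prop := ∀ φ : X →L[𝕜] 𝕜, CauchySeq fun n => φ (x n)

variable {𝕜}

/-- `T` sends weakly Cauchy sequences to norm Cauchy sequences -/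
def CompletelyContinuous (T : X →L[𝕜] Y) : Prop :=
  ∀ x : ℕ → X, WeaklyCauchy 𝕜 x → CauchySeq fun n => T (x n)

/-- `T B_X` is relatively weakly compact -/
def WeaklyCompact (T : X →L[𝕜] Y) : Prop :=
  IsCompact (closure ((toWeakSpace 𝕜 Y) '' (T '' closedBall 0 1)))

/-- `Φ ∈ Y**` lies in the weak* closure of `T B_X` -/
def InWeakStarClosure (T : X →L[𝕜] Y) (Φ : StrongDual 𝕜 (StrongDual 𝕜 Y)) : Prop :=
  ∀ (F : Finset (StrongDual 𝕜 Y)) (ε : ℝ), 0 < ε →
    ∃ x : X, ‖x‖ ≤ 1 ∧ ∀ ψ ∈ F, ‖Φ ψ - ψ (T x)‖ < ε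

/-- the norm `‖Φ - y‖` in `Y**`: the supremum of `|Φ ψ - ψ y|` over `ψ ∈ B_{Y*}` -/
noncomputable def bidualDist (Φ : StrongDual 𝕜 (StrongDual 𝕜 Y)) (y : Y) : ℝ≥0∞ :=
  ⨆ (ψ : StrongDual 𝕜 Y) (_ : ‖ψ‖ ≤ 1), ENNReal.ofReal ‖Φ ψ - ψ y‖

/-- `wk_Y(T)`: the supremum over the weak* closure of `T B_X` of the norm distance to `Y` -/
noncomputable def wk (T : X →L[𝕜] Y) : ℝ≥0∞ :=
  ⨆ (Φ : StrongDual 𝕜 (StrongDual 𝕜 Y)) (_ : InWeakStarClosure T Φ), ⨅ y : Y, bidualDist Φ y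

/-- `ca(y_k) = inf_n sup_{k,l ≥ n} ‖y_k - y_l‖` -/
noncomputable def ca (y : ℕ → Y) : ℝ≥0∞ :=
  ⨅ n : ℕ, ⨆ (k : ℕ) (_ : n ≤ k) (l : ℕ) (_ : n ≤ l), ENNReal.ofReal ‖y k - y l‖

/-- `cc(T)`: the supremum of `ca(T x_k)` over the weakly Cauchy sequences in `B_X` -/
noncomputable def cc (T : X →L[𝕜] Y) : ℝ≥0∞ :=
  ⨆ (x : ℕ → X) (_ : WeaklyCauchy 𝕜 x) (_ : ∀ k, ‖x k‖ ≤ 1), ca fun k => T (x k)

end defs

/-- the reciprocal Dunford-Pettis property -/
def RDPP (𝕜 : Type u) [RCLike 𝕜] (X : Type v) [NormedAddCommGroup X] [NormedSpace 𝕜 X] : Prop :=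
  ∀ (Y : Type w) [NormedAddCommGroup Y] [NormedSpace 𝕜 Y] [CompleteSpace Y] (T : X →L[𝕜] Y),
    CompletelyContinuous T → WeaklyCompact T

/-- the quantitative reciprocal Dunford-Pettis property -/
def QuantRDPP (𝕜 : Type u) [RCLike 𝕜] (X : Type v) [NormedAddCommGroup X] [NormedSpace 𝕜 X] :
    Prop :=
  ∃ C : ℝ≥0, ∀ (Y : Type w) [NormedAddCommGroup Y] [NormedSpace 𝕜 Y] [CompleteSpace Y]
    (T : X →L[𝕜] Y), wk T ≤ C * cc T

open R881.Rdp in
/-- **There is a Banach space with the RDPP that fails the quantitative RDPP.** -/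
theorem result (𝕜 : Type u) [RCLike 𝕜] :
    ∃ (X : Type u) (_ : NormedAddCommGroup X) (_ : NormedSpace 𝕜 X),
      CompleteSpace X ∧ RDPP.{u, u, w} 𝕜 X ∧ ¬ QuantRDPP.{u, u, u} 𝕜 X := by
  refine ⟨XX (RR 𝕜), inferInstance, inferInstance, inferInstance, ?_, ?_⟩
  · intro Y _ _ _ T hT
    exact rdpp_XX hT
  · rintro ⟨C, hC⟩
    obtain ⟨n, hn⟩ := exists_nat_gt (19 * (C : ℝ))
    have hn0 : 0 < n := by
      have h1 : (0 : ℝ) < n := lt_of_le_of_lt (by positivity) hn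
      exact_mod_cast h1
    have hn' : (0 : ℝ) < n := by exact_mod_cast hn0
    have h := hC (BoundedContinuousFunction Pt 𝕜) (PP (RR 𝕜) n)
    have hwk : 1 ≤ wk (PP (RR 𝕜) n) := by
      obtain ⟨Φ, hΦ, hΦ2⟩ := wk_bound (𝕜 := 𝕜) n
      have hmem : InWeakStarClosure (PP (RR 𝕜) n) (WeakDual.toStrongDual Φ) := by
        intro F ε hε
        obtain ⟨N, hN⟩ := exists_nat_one_div_lt hε
        obtain ⟨x, hx, hx2⟩ := AA_nonempty hΦ (F, N)
        refine ⟨x, hx, fun ψ hψ => ?_⟩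
        rw [norm_sub_rev]
        exact (hx2 ψ hψ).trans_lt hN
      refine le_iSup₂_of_le (WeakDual.toStrongDual Φ) hmem (le_iInf fun y => ?_)
      refine le_of_forall_lt_imp_le_of_dense fun r hr => ?_
      by_contra hcon
      push Not at hcon
      have hr' : r ≠ ∞ := (hr.trans ENNReal.one_lt_top).ne
      have h1 : ‖WeakDual.toStrongDual Φ -
          NormedSpace.inclusionInDoubleDual 𝕜 (BoundedContinuousFunction Pt 𝕜) y‖ ≤ r.toReal := by
        refine opNorm_le_of_unit ENNReal.toReal_nonneg fun ψ hψ => ?_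
        have h2 : ENNReal.ofReal ‖WeakDual.toStrongDual Φ ψ - ψ y‖ ≤ r :=
          (le_iSup₂ (f := fun (ψ : StrongDual 𝕜 (BoundedContinuousFunction Pt 𝕜))
            (_ : ‖ψ‖ ≤ 1) => ENNReal.ofReal ‖WeakDual.toStrongDual Φ ψ - ψ y‖) ψ hψ).trans hcon.le
        exact (ENNReal.ofReal_le_iff_le_toReal hr').1 h2
      have h2 := (hΦ2 y).trans h1
      have h3 : (1 : ℝ≥0∞) ≤ r := by
        rw [← ENNReal.ofReal_toReal hr', ← ENNReal.ofReal_one]
        exact ENNReal.ofReal_le_ofReal h2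
      exact absurd hr (not_lt.2 h3)
    have hcc : cc (PP (RR 𝕜) n) ≤ ENNReal.ofReal (19 / n) := by
      refine iSup_le fun x => iSup_le fun hx => iSup_le fun hx1 => ?_
      obtain ⟨m, hm⟩ := cc_bound hn0 hx1 hx
      refine iInf_le_of_le m (iSup₂_le fun k hk => iSup₂_le fun l hl => ?_)
      exact ENNReal.ofReal_le_ofReal (hm k hk l hl)
    have h2 : (1 : ℝ≥0∞) ≤ C * ENNReal.ofReal (19 / n) :=
      hwk.trans (h.trans (by gcongr))
    have h3 : (C : ℝ≥0∞) * ENNReal.ofReal (19 / n) = ENNReal.ofReal (C * (19 / n)) := by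
      rw [ENNReal.ofReal_mul C.coe_nonneg, ENNReal.ofReal_coe_nnreal]
    rw [h3, ← ENNReal.ofReal_one, ENNReal.ofReal_le_ofReal_iff (by positivity)] at h2
    rw [mul_div_assoc', le_div_iff₀ hn'] at h2
    linarith

end Pool.Agent.Results.MP_2f19c2_an.NotQuantitative
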